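import Pool.Agent.helper80.SG.Spec3

/-!
# Project bl (MP_b5a345_ag), module B3: three factors
-/

set_option autoImplicit false

namespace Pool.Agent.SG

open Pool.Agent.SV

theorem B3_ch1 (m d : ℕ) (hd : 1 ≤ d) : m + 1 ≤ (m + d).choose m := by
  calc m + 1 = (m + 1).choose m := (Nat.choose_succ_self_right m).symm
    _ ≤ (m + d).choose m := Nat.choose_le_choose m (by omega)

theorem B3_ch2 (m : ℕ) : 2 * (m + 2).choose m = (m + 1) * (m + 2) := by
  rw [Nat.choose_symm_add]
  have h := Nat.add_one_mul_choose_eq (m + 1) 1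
  rw [Nat.choose_one_right] at h

  have h2 : (m + 2).choose 2 * 2 = (m + 1 + 1) * (m + 1) := h.symm
  nlinarith

theorem B3_ch2' (m d : ℕ) (hd : 2 ≤ d) : (m + 1) * (m + 2) ≤ 2 * (m + d).choose m := by
  rw [← B3_ch2]
  exact Nat.mul_le_mul_left 2 (Nat.choose_le_choose m (by omega))

theorem B3_ch3 (m d : ℕ) (hm : 1 ≤ m) (hd : 3 ≤ d) :
    m * (m + 1) ≤ 2 * (m + d - 2).choose (m - 1) := by
  obtain ⟨p, rfl⟩ : ∃ p, m = p + 1 := ⟨m - 1, by omega⟩
  have h1 := B3_ch2 p
  have h2 : (p + 2).choose p ≤ (p + 1 + d - 2).choose (p + 1 - 1) := by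
    rw [Nat.add_sub_cancel]
    exact Nat.choose_le_choose p (by omega)
  calc (p + 1) * (p + 1 + 1) = 2 * (p + 2).choose p := h1.symm
    _ ≤ _ := Nat.mul_le_mul_left 2 h2

theorem B3_ch4 (m : ℕ) (hm : 1 ≤ m) : (m + 2 - 2).choose (m - 1) = m := by
  obtain ⟨p, rfl⟩ : ∃ p, m = p + 1 := ⟨m - 1, by omega⟩
  rw [Nat.add_sub_cancel, Nat.add_sub_cancel]
  exact Nat.choose_succ_self_right p

theorem B3_sum (f : Fin 3 → ℕ) (j i l : Fin 3) (h1 : j ≠ i) (h2 : j ≠ l) (h3 : i ≠ l) :
    ∑ x, f x = f j + f i + f l := by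
  rw [Fin.sum_univ_three]
  fin_cases j <;> fin_cases i <;> fin_cases l <;> simp_all <;> ring

theorem B3_prod (f : Fin 3 → ℕ) (j i l : Fin 3) (h1 : j ≠ i) (h2 : j ≠ l) (h3 : i ≠ l) :
    ∏ x ∈ Finset.univ.erase j, f x = f i * f l := by
  have : Finset.univ.erase j = {i, l} := by
    ext x
    rw [Finset.mem_erase, Finset.mem_insert, Finset.mem_singleton]
    revert x j i l
    decide
  rw [this, Finset.prod_pair h3]

theorem B3_oth (j : Fin 3) : ∃ i l : Fin 3, j ≠ i ∧ j ≠ l ∧ i ≠ l := by
  revert j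
  decide

theorem B3_oth2 (j i : Fin 3) (h : j ≠ i) : ∃ l : Fin 3, j ≠ l ∧ i ≠ l := by
  revert j i
  decide

/-- the minimum and the maximum of the three dimensions -/
theorem B3_mm (n : Fin 3 → ℕ) (h1 : ∀ i, 1 ≤ n i) (h : ∀ i l, 110 * n i ^ 3 ≤ n l ^ 4) :
    ∃ a A : ℕ, (∀ i, a ≤ n i) ∧ (∀ i, n i ≤ A) ∧ 110 * A ^ 3 ≤ a ^ 4 ∧ 110 ≤ a := by
  obtain ⟨i0, hi0⟩ := Finite.exists_min n
  obtain ⟨l0, hl0⟩ := Finite.exists_max n
  refine ⟨n i0, n l0, hi0, hl0, h l0 i0, ?_⟩
  have h2 := h i0 i0
  have h3 := h1 i0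
  have h4 : 0 < n i0 ^ 3 := by positivity
  have h5 : n i0 ^ 4 = n i0 * n i0 ^ 3 := by ring
  rw [h5] at h2
  exact Nat.le_of_mul_le_mul_right h2 h4

theorem B3 (hTHR : THR_stmt) (hST2 : ST2_stmt) : B3_stmt := by
  intro n d hn hnl hd hj2
  obtain ⟨a, A, ha, hA, haA, ha110⟩ := B3_mm n hn hnl
  have hcube : ∀ N : ℕ, N ≤ 3 * A → 1331000 * (N + 1) ^ 3 ≤ 36264691 * A ^ 3 := by
    intro N hN
    have hA110 : 110 ≤ A := ha110.trans ((ha 0).trans (hA 0))
    have h1 : 110 * (N + 1) ≤ 331 * A := by omega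
    have h2 := Nat.pow_le_pow_left h1 3
    rw [mul_pow, mul_pow] at h2
    norm_num at h2
    exact h2
  by_cases hc1 : ∃ j, 3 ≤ d j
  · obtain ⟨j, hj⟩ := hc1
    obtain ⟨i, l, e1, e2, e3⟩ := B3_oth j
    refine hTHR 3 n d (by norm_num) hn hd j (Or.inl ⟨hj, ?_⟩)
    unfold Pool.Agent.SV.hj
    rw [B3_sum n j i l e1 e2 e3, B3_prod _ j i l e1 e2 e3]
    have c1 := B3_ch3 (n j) (d j) (hn j) hj
    have c2 := B3_ch1 (n i) (d i) (hd i)
    have c3 := B3_ch1 (n l) (d l) (hd l)
    have k1 := hcube (n j + n i + n l) (by have := hA j; have := hA i; have := hA l; omega)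
    have k2 : a * (a * (a * a)) ≤ 2 * (n j + d j - 2).choose (n j - 1) *
        ((n i + d i).choose (n i) * (n l + d l).choose (n l)) := by
      calc a * (a * (a * a)) = (a * a) * (a * a) := by ring
        _ ≤ (n j * (n j + 1)) * ((n i + 1) * (n l + 1)) := by
            have := ha j
            have := ha i
            have := ha l
            gcongr <;> omega
        _ ≤ _ := by gcongr
    have k3 : a ^ 4 = a * (a * (a * a)) := by ring
    rw [k3] at haA
    have k4 := haA.trans k2
    rw [mul_assoc] at k4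
    generalize (n j + d j - 2).choose (n j - 1) *
        ((n i + d i).choose (n i) * (n l + d l).choose (n l)) = H at k4 ⊢
    generalize (n j + n i + n l + 1) ^ 3 = Q at k1 ⊢
    generalize A ^ 3 = R at k1 k4
    omega
  · have hd2 : ∀ i, d i ≤ 2 := fun i => by
      by_contra hcon
      exact hc1 ⟨i, by omega⟩
    obtain ⟨j, hj⟩ := hj2
    have hdj : d j = 2 := le_antisymm (hd2 j) hj
    by_cases hc2 : ∃ i, i ≠ j ∧ d i = 2
    · obtain ⟨i, hij, hdi⟩ := hc2
      obtain ⟨l, e2, e3⟩ := B3_oth2 j i hij.symm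
      refine hTHR 3 n d (by norm_num) hn hd j (Or.inr ⟨hdj, ?_⟩)
      unfold Pool.Agent.SV.hj
      rw [B3_sum n j i l hij.symm e2 e3, B3_prod _ j i l hij.symm e2 e3, hdj, hdi,
        B3_ch4 (n j) (hn j)]
      have c2 := B3_ch2 (n i)
      have c3 := B3_ch1 (n l) (d l) (hd l)
      have k1 := hcube (n j + n i + n l) (by have := hA j; have := hA i; have := hA l; omega)
      have k2 : a * (a * (a * a)) ≤ 2 * (n j * ((n i + 2).choose (n i) *
          (n l + d l).choose (n l))) := by
        calc a * (a * (a * a)) = (a * (a * a)) * a := by ring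
          _ ≤ (n j * ((n i + 1) * (n i + 2))) * (n l + 1) := by
              have := ha j
              have := ha i
              have := ha l
              gcongr <;> omega
          _ = (n j * (2 * (n i + 2).choose (n i))) * (n l + 1) := by rw [c2]
          _ ≤ (n j * (2 * (n i + 2).choose (n i))) * (n l + d l).choose (n l) := by gcongr
          _ = _ := by ring
      have k3 : a ^ 4 = a * (a * (a * a)) := by ring
      rw [k3] at haA
      have k4 := haA.trans k2
      have s1 : n j + n i + n l - n j + 1 = n i + n l + 1 := by omega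
      have s2 : n j + n i + n l - n j - 1 = n i + n l - 1 := by omega
      rw [s1, s2]
      have hi110 := ha110.trans (ha i)
      have hl110 := ha110.trans (ha l)
      generalize n j * ((n i + 2).choose (n i) * (n l + d l).choose (n l)) = H at k4 ⊢
      generalize (n j + n i + n l + 1) ^ 3 = Q at k1 ⊢
      generalize A ^ 3 = R at k1 k4
      have k5 : 2 * Q ≤ H := by omega
      have k6 : n i + n l + 1 ≤ 2 * (n i + n l - 1) := by omega
      calc (n i + n l + 1) * Q ≤ (2 * (n i + n l - 1)) * Q := Nat.mul_le_mul_right _ k6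
        _ = (n i + n l - 1) * (2 * Q) := by ring
        _ ≤ (n i + n l - 1) * H := Nat.mul_le_mul_left _ k5
    · have hd1 : ∀ i, i ≠ j → d i = 1 := fun i hi => by
        have h1 := hd i
        have h2 := hd2 i
        by_contra hcon
        exact hc2 ⟨i, hi, by omega⟩
      obtain ⟨i, l, e1, e2, e3⟩ := B3_oth j
      have hdi := hd1 i e1.symm
      have hdl := hd1 l e2.symm
      have hi110 := ha110.trans (ha i)
      refine hST2 3 n d hn hd i hdi (by omega) {l, j} ?_ ?_ ?_
      · rw [Finset.mem_insert, Finset.mem_singleton, not_or]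
        exact ⟨e3, e1.symm⟩
      · rw [Finset.sum_pair e2.symm, hdl, hdj]
      rw [B3_sum n j i l e1 e2 e3, B3_prod _ i l j e3 e1.symm e2.symm, hdj, hdl]
      have c2 := B3_ch2 (n j)
      have c3 := B3_ch1 (n l) 1 le_rfl
      have s1 : n j + n i + n l - n i = n j + n l := by omega
      rw [s1]
      have hA110 : 110 ≤ A := ha110.trans ((ha 0).trans (hA 0))
      have Aj := hA j
      have Ai := hA i
      have Al := hA l
      have aj := ha j
      have ai := ha i
      have al := ha l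
      set M := (n l + 1).choose (n l) * (n j + 2).choose (n j) with hM
      have m1 : a * (a * a) ≤ 2 * M := by
        calc a * (a * a) ≤ (n l + 1) * ((n j + 1) * (n j + 2)) := by gcongr <;> omega
          _ = (n l + 1) * (2 * (n j + 2).choose (n j)) := by rw [c2]
          _ ≤ (n l + 1).choose (n l) * (2 * (n j + 2).choose (n j)) := by gcongr
          _ = 2 * M := by rw [hM]; ring
      have p1 : 110 * (n j + n i + n l + 1) ≤ 331 * A := by omega
      have p2 : 110 * (n j + n l + 1) ≤ 221 * A := by omega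
      have p3 : 110 * (a * (2 * (n j + n l) + 3 * n i + 3)) ≤ 773 * (A * n i) := by
        have q1 : a * (n j + n l) ≤ n i * (2 * A) := by
          apply Nat.mul_le_mul ai
          omega
        have q2 : a * n i ≤ A * n i := Nat.mul_le_mul_right _ (ai.trans Ai)
        have q3 : 110 * a ≤ A * n i := Nat.mul_le_mul hA110 ai
        nlinarith
      have p4 : (110 * (n j + n i + n l + 1)) * (110 * (n j + n l + 1)) *
          (110 * (a * (2 * (n j + n l) + 3 * n i + 3))) ≤ (331 * A) * (221 * A) *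
          (773 * (A * n i)) := Nat.mul_le_mul (Nat.mul_le_mul p1 p2) p3
      have p5 : 1331000 * (a * ((n j + n i + n l + 1) * (n j + n l + 1) *
          (2 * (n j + n l) + 3 * n i + 3))) ≤ 56545723 * (n i * A ^ 3) := by
        calc _ = (110 * (n j + n i + n l + 1)) * (110 * (n j + n l + 1)) *
          (110 * (a * (2 * (n j + n l) + 3 * n i + 3))) := by ring
          _ ≤ _ := p4
          _ = _ := by ring
      have p6 : 110 * (n i * A ^ 3) ≤ 2 * (a * (n i * M)) := by
        calc 110 * (n i * A ^ 3) = n i * (110 * A ^ 3) := by ring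
          _ ≤ n i * a ^ 4 := Nat.mul_le_mul_left _ haA
          _ = n i * (a * (a * (a * a))) := by ring
          _ ≤ n i * (a * (2 * M)) := by gcongr
          _ = _ := by ring
      have p7 : a * ((n j + n i + n l + 1) * (n j + n l + 1) *
          (2 * (n j + n l) + 3 * n i + 3)) ≤ a * (n i * M) := by
        generalize n i * A ^ 3 = R at p5 p6
        omega
      exact Nat.le_of_mul_le_mul_left p7 (by omega)

end Pool.Agent.SG
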